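import Mathlib
import Pool.Agent.Helper77.H2.Cfg
import Pool.Agent.Helper82.H2.Diff

/-!
# Project H2 (type 2): the quadratic equation over `x` has no rational root
-/

namespace Pool.Agent.Helper77.H2

open Pool.Agent.Helper24.H2 Pool.Agent.Helper28.H2 Pool.Agent.Helper47.H2
open Pool.Agent.Helper28.HN (I Un En cr aff cp ee)
open Pool.Agent.Helper77.HN (quad_zero descent)

variable {m : ℕ}

section paths

variable {L : Type*} [Field L]

/-- The direction `v + t w1 + t^2 w2`. -/
noncomputable def pth (v w1 w2 : Fin (m + 1) → L) : Fin (m + 1) → Polynomial L :=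
  fun i => Polynomial.C (v i) + (Polynomial.X * Polynomial.C (w1 i) +
    Polynomial.X ^ 2 * Polynomial.C (w2 i))

/-- `u + s (v + t w1 + t^2 w2)`. -/
noncomputable def Ph (u v w1 w2 : Fin (m + 1) → L) :
    MvPolynomial (Fin (m + 1)) L →+* Polynomial (Polynomial L) :=
  MvPolynomial.eval₂Hom (Polynomial.C.comp Polynomial.C)
    (fun i => Polynomial.C (Polynomial.C (u i)) + Polynomial.X * Polynomial.C (pth v w1 w2 i))

theorem Ph_eval (u v w1 w2 : Fin (m + 1) → L) (r : MvPolynomial (Fin (m + 1)) L) :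
    ((Ph u v w1 w2 r).eval 1).eval 0 = MvPolynomial.eval (fun i => u i + v i) r := by
  have h : (((Polynomial.evalRingHom (0 : L)).comp (Polynomial.evalRingHom (1 : Polynomial L))).comp
      (Ph u v w1 w2)) = MvPolynomial.eval (fun i => u i + v i) := by
    refine MvPolynomial.ringHom_ext ?_ ?_
    · intro a
      simp [Ph]
    · intro i
      simp [Ph, pth]
  exact RingHom.congr_fun h r

theorem Ph_const (u v w1 w2 : Fin (m + 1) → L) (c : Ix m → L) :
    (fun e => Ph u v w1 w2 (MvPolynomial.C (c e))) =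
      fun e => Polynomial.C (Polynomial.C (c e)) := by
  funext e
  simp [Ph]

theorem Ph_aff (u v w1 w2 : Fin (m + 1) → L) :
    (fun i => Ph u v w1 w2 ((aff MvPolynomial.X : I m → MvPolynomial (Fin (m + 1)) L) i)) =
      fun i => Polynomial.C ((aff fun i => Polynomial.C (u i) : I m → Polynomial L) i) +
        Polynomial.X * Polynomial.C ((Fin.cons 0 (pth v w1 w2) : I m → Polynomial L) i) := by
  funext i
  refine Fin.cases ?_ (fun i => ?_) i
  · simp [aff]
  · simp [aff, Ph]

theorem Ph_A (u v w1 w2 : Fin (m + 1) → L) (c : Ix m → L) :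
    Ph u v w1 w2 (Ap c) = Ah (fun e => Polynomial.C (Polynomial.C (c e)))
      (fun i => Polynomial.C ((aff fun i => Polynomial.C (u i) : I m → Polynomial L) i) +
        Polynomial.X * Polynomial.C ((Fin.cons 0 (pth v w1 w2) : I m → Polynomial L) i)) := by
  rw [Ap, Helper94.H2.map_Ah, Ph_const, Ph_aff]

theorem Ph_B (u v w1 w2 : Fin (m + 1) → L) (c : Ix m → L) :
    Ph u v w1 w2 (Bp c) = Bh (fun e => Polynomial.C (Polynomial.C (c e)))
      (fun i => Polynomial.C ((aff fun i => Polynomial.C (u i) : I m → Polynomial L) i) +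
        Polynomial.X * Polynomial.C ((Fin.cons 0 (pth v w1 w2) : I m → Polynomial L) i)) := by
  rw [Bp, Helper94.H2.map_Bh, Ph_const, Ph_aff]

theorem Ph_C (u v w1 w2 : Fin (m + 1) → L) (c : Ix m → L) :
    Ph u v w1 w2 (Cp c) = Ch (fun e => Polynomial.C (Polynomial.C (c e)))
      (fun i => Polynomial.C ((aff fun i => Polynomial.C (u i) : I m → Polynomial L) i) +
        Polynomial.X * Polynomial.C ((Fin.cons 0 (pth v w1 w2) : I m → Polynomial L) i)) := by
  rw [Cp, Helper94.H2.map_Ch, Ph_const, Ph_aff]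

/-- The value of the quadratic equation on the path. -/
theorem Ph_F (u v w1 w2 : Fin (m + 1) → L) (c : Ix m → L) (z : Polynomial L) :
    Fh (fun e => Polynomial.C (Polynomial.C (c e)))
      (fun i => Polynomial.C ((aff fun i => Polynomial.C (u i) : I m → Polynomial L) i) +
        Polynomial.X * Polynomial.C ((Fin.cons 0 (pth v w1 w2) : I m → Polynomial L) i))
      (Polynomial.C z) = Ph u v w1 w2 (Ap c) * Polynomial.C (z ^ 2) +
        Ph u v w1 w2 (Bp c) * Polynomial.C (2 * z) + Ph u v w1 w2 (Cp c) := by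
  rw [Helper47.H2.Fh_eq, ← Ph_A, ← Ph_B, ← Ph_C]
  simp only [map_pow, map_mul, map_ofNat]
  ring

theorem map_qh_C (c : Ix m → L) (u w : Fin (m + 1) → L) (z : L) :
    qh (fun e => Polynomial.C (c e)) (aff fun i => Polynomial.C (u i))
      (fun i => Polynomial.C ((Fin.cons 0 w : I m → L) i)) (Polynomial.C z) =
      Polynomial.C (qh c (aff u) (Fin.cons 0 w) z) := by
  rw [Helper94.H2.map_qh, Helper94.H2.map_aff]

theorem map_D_C (c : Ix m → L) (u : Fin (m + 1) → L) :
    (Mx (fun e => Polynomial.C (c e)) (aff fun i => Polynomial.C (u i))).det =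
      Polynomial.C ((Mx c (aff u)).det) := by
  rw [RingHom.map_det, Helper94.H2.map_Mx, Helper94.H2.map_aff]

theorem map_F_C (c : Ix m → L) (u : Fin (m + 1) → L) (z : L) :
    Fh (fun e => Polynomial.C (c e)) (aff fun i => Polynomial.C (u i)) (Polynomial.C z) =
      Polynomial.C (Fh c (aff u) z) := by
  rw [Helper94.H2.map_Fh, Helper94.H2.map_aff]

/-- The first order terms. -/
theorem first_order {c : Ix m → L} {u : Fin (m + 1) → L} {z : Fin 3 → L} (h : Good c u z)
    (v w1 w2 : Fin (m + 1) → L) (h1 : ∀ t, qh c (aff u) (Fin.cons 0 w1) t = 1)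
    (h2 : ∀ t, qh c (aff u) (Fin.cons 0 w2) t = t ^ 2) (t : L) :
    Polynomial.C ((Mx c (aff u)).det) * ((Ph u v w1 w2 (Ap c)).coeff 1 * Polynomial.C (t ^ 2) +
      (Ph u v w1 w2 (Bp c)).coeff 1 * Polynomial.C (2 * t) + (Ph u v w1 w2 (Cp c)).coeff 1) =
    Polynomial.C (qh c (aff u) (Fin.cons 0 v) t) + Polynomial.X +
      Polynomial.X ^ 2 * Polynomial.C (t ^ 2) := by
  obtain ⟨d, hd⟩ := Helper82.H2.diff_F (fun e => Polynomial.C (c e)) (aff fun i => Polynomial.C (u i))
    (Fin.cons 0 (pth v w1 w2))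
  have e := (hd (Polynomial.C t)).1
  rw [map_D_C, Ph_F, map_F_C, h.hF, map_zero, mul_zero, add_zero] at e
  have e1 : ∀ P : Polynomial (Polynomial L), P.derivative.eval 0 = P.coeff 1 := by
    intro P
    rw [← Polynomial.coeff_zero_eq_eval_zero, Polynomial.coeff_derivative]
    simp
  rw [e1] at e
  simp only [Polynomial.coeff_add, Polynomial.coeff_mul_C] at e
  have e2 : qh (fun e => Polynomial.C (c e)) (aff fun i => Polynomial.C (u i))
      (Fin.cons 0 (pth v w1 w2)) (Polynomial.C t) =
      Polynomial.C (qh c (aff u) (Fin.cons 0 v) t) + Polynomial.X +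
      Polynomial.X ^ 2 * Polynomial.C (t ^ 2) := by
    have e3 : (Fin.cons 0 (pth v w1 w2) : I m → Polynomial L) =
        fun i => Polynomial.C ((Fin.cons 0 v : I m → L) i) +
          ((fun i => Polynomial.X * Polynomial.C ((Fin.cons 0 w1 : I m → L) i)) i +
          (fun i => Polynomial.X ^ 2 * Polynomial.C ((Fin.cons 0 w2 : I m → L) i)) i) := by
      funext i
      refine Fin.cases ?_ (fun i => ?_) i
      · simp
      · simp [pth]
    rw [e3, qh_add, qh_add, qh_smul, qh_smul, map_qh_C, map_qh_C, map_qh_C, h1, h2]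
    simp only [map_one, mul_one, map_pow]
    ring
  rw [e2] at e
  rw [← e]
  simp only [map_pow, map_mul, map_ofNat]

theorem coeff_zero_of (u v w1 w2 : Fin (m + 1) → L) (P : MvPolynomial (Fin (m + 1)) L)
    (h : MvPolynomial.eval u P = 0) : (Ph u v w1 w2 P).coeff 0 = 0 := by
  have h' : (Polynomial.constantCoeff.comp (Ph u v w1 w2)) =
      Polynomial.C.comp (MvPolynomial.eval u) := by
    refine MvPolynomial.ringHom_ext ?_ ?_
    · intro a
      simp [Ph]
    · intro i
      simp [Ph]
  have e := RingHom.congr_fun h' P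
  simp only [RingHom.comp_apply, Polynomial.constantCoeff_apply, h, map_zero] at e
  exact e

theorem ns_of_good [CharZero L] {c : Ix m → L} {u : Fin (m + 1) → L} {z : Fin 3 → L}
    (h : Good c u z) : NS c := by
  intro r0 r1 hr
  obtain ⟨w1, hw1⟩ := exists_wq h 0 0 1
  obtain ⟨w2, hw2⟩ := exists_wq h 1 0 0
  replace hw1 : ∀ t, qh c (aff u) (Fin.cons 0 w1) t = 1 := fun t => by rw [hw1]; ring
  replace hw2 : ∀ t, qh c (aff u) (Fin.cons 0 w2) t = t ^ 2 := fun t => by rw [hw2]; ring
  have e0 := h.hF 0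
  have e1 := h.hF 1
  have e2 := h.hF (-1)
  rw [Helper47.H2.Fh_eq] at e0 e1 e2
  have hA0 : MvPolynomial.eval u (Ap c) = 0 := by
    have e : MvPolynomial.eval u (Ap c) = Ah c (aff u) := by
      rw [Ap, Helper94.H2.map_Ah, Helper94.H2.map_aff]
      simp
    have e3 : 2 * Ah c (aff u) = 0 := by linear_combination e1 + e2 - 2 * e0
    rw [e]
    exact (mul_eq_zero.1 e3).resolve_left two_ne_zero
  have hB0 : MvPolynomial.eval u (Bp c) = 0 := by
    have e : MvPolynomial.eval u (Bp c) = Bh c (aff u) := by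
      rw [Bp, Helper94.H2.map_Bh, Helper94.H2.map_aff]
      simp
    have e3 : 4 * Bh c (aff u) = 0 := by linear_combination e1 - e2
    rw [e]
    exact (mul_eq_zero.1 e3).resolve_left (by norm_num)
  have hC0 : MvPolynomial.eval u (Cp c) = 0 := by
    have e : MvPolynomial.eval u (Cp c) = Ch c (aff u) := by
      rw [Cp, Helper94.H2.map_Ch, Helper94.H2.map_aff]
      simp
    rw [e]
    linear_combination e0
  have main : ∀ v : Fin (m + 1) → L, Ph u v w1 w2 r0 = 0 ∧ Ph u v w1 w2 r1 = 0 := by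
    intro v
    have f0 := first_order h v w1 w2 hw1 hw2 0
    have f1 := first_order h v w1 w2 hw1 hw2 1
    have f2 := first_order h v w1 w2 hw1 hw2 (-1)
    refine descent (Ph u v w1 w2 (Ap c)) (Ph u v w1 w2 (Bp c)) (Ph u v w1 w2 (Cp c))
      (coeff_zero_of _ _ _ _ _ hA0) (coeff_zero_of _ _ _ _ _ hB0) (coeff_zero_of _ _ _ _ _ hC0)
      ?_ _ _ ?_
    · intro s0 s1 hs
      set q0 := qh c (aff u) (Fin.cons 0 v) 0 with hq0
      set q1 := qh c (aff u) (Fin.cons 0 v) 1 with hq1
      set q2 := qh c (aff u) (Fin.cons 0 v) (-1) with hq2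
      have ha : (2 : L) * ((q1 + q2 - 2 * q0) / 2) = q1 + q2 - 2 * q0 := by
        field_simp
      have hb : (4 : L) * ((q1 - q2) / 4) = q1 - q2 := by
        field_simp
      have ha' := congrArg Polynomial.C ha
      have hb' := congrArg Polynomial.C hb
      have hD : (Polynomial.C ((Mx c (aff u)).det) : Polynomial L) ≠ 0 :=
        fun e => h.hD (Polynomial.C_eq_zero.1 e)
      simp only [map_mul, map_add, map_sub, map_ofNat, map_neg, map_one, map_zero,
        mul_zero, mul_one, add_zero, ne_eq, OfNat.ofNat_ne_zero, not_false_eq_true, zero_pow,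
        one_pow, even_two, Even.neg_pow] at ha' hb' f0 f1 f2
      have g0 : 2 * (Polynomial.C ((Mx c (aff u)).det) * (Ph u v w1 w2 (Ap c)).coeff 1 -
          (Polynomial.C ((q1 + q2 - 2 * q0) / 2) + Polynomial.X ^ 2)) = 0 := by
        linear_combination f1 + f2 - 2 * f0 - ha'
      have g1 : 4 * (Polynomial.C ((Mx c (aff u)).det) * (Ph u v w1 w2 (Bp c)).coeff 1 -
          Polynomial.C ((q1 - q2) / 4)) = 0 := by
        linear_combination f1 - f2 - hb'
      have g0' := (mul_eq_zero.1 g0).resolve_left two_ne_zero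
      have h4 : (4 : Polynomial L) ≠ 0 := by norm_num
      have g1' := (mul_eq_zero.1 g1).resolve_left h4
      refine quad_zero ((q1 + q2 - 2 * q0) / 2) ((q1 - q2) / 4) q0 s0 s1 ?_
      linear_combination Polynomial.C ((Mx c (aff u)).det) * hs - s0 ^ 2 * g0' +
        2 * s0 * s1 * g1' - s1 ^ 2 * f0
    · have := congrArg (Ph u v w1 w2) hr
      simpa only [map_add, map_sub, map_mul, map_pow, map_ofNat, map_zero] using this
  have fin : ∀ r : MvPolynomial (Fin (m + 1)) L, (∀ v, Ph u v w1 w2 r = 0) → r = 0 := by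
    intro r hr
    refine MvPolynomial.funext fun x => ?_
    have e := Ph_eval u (fun i => x i - u i) w1 w2 r
    rw [hr, Polynomial.eval_zero, Polynomial.eval_zero] at e
    rw [map_zero, e]
    congr 2
    funext i
    ring
  exact ⟨fin r0 fun v => (main v).1, fin r1 fun v => (main v).2⟩

end paths

end Pool.Agent.Helper77.H2
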